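import Pool.Agent.Lib.MP_bb72f8_ag.Ins.Defs

set_option autoImplicit false

namespace Pool.Agent.BbIns

open MvPolynomial

universe u

variable {K : Type u} [Field K]

/-- the linear form with coefficients `l` -/
noncomputable def lin (l : Fin 3 → K) : MvPolynomial (Fin 3) K := ∑ k, C (l k) * X k

theorem eval_lin (l x : Fin 3 → K) : eval x (lin l) = ∑ k, l k * x k := by
  simp [lin]

theorem lin_hom (l : Fin 3 → K) : (lin l).IsHomogeneous 1 :=
  IsHomogeneous.sum _ _ _ fun k _ => isHomogeneous_C_mul_X (l k) k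

theorem lin_ne {l : Fin 3 → K} (hl : l ≠ 0) : lin l ≠ 0 := by
  intro h
  apply hl
  funext k
  have h1 := eval_lin l (Pi.single k 1)
  rw [h, map_zero] at h1
  simpa [Pi.single_apply] using h1.symm

theorem lin_mem {l p : Fin 3 → K} (h : ∑ k, l k * p k = 0) : lin l ∈ ptIdeal p :=
  Ideal.subset_span ⟨l, h, rfl⟩

theorem exists_lin (u v : Fin 3 → K) : ∃ l : Fin 3 → K, l ≠ 0 ∧ ∑ k, l k * u k = 0 ∧
    ∑ k, l k * v k = 0 := by
  have h0 : (Matrix.of ![u, v, 0] : Matrix (Fin 3) (Fin 3) K).det = 0 :=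
    Matrix.det_eq_zero_of_row_eq_zero 2 (fun j => by simp)
  obtain ⟨l, hl, h⟩ := Matrix.exists_mulVec_eq_zero_iff.2 h0
  refine ⟨l, hl, ?_, ?_⟩
  · have := congrFun h 0
    simp only [Matrix.mulVec, dotProduct, Matrix.of_apply, Matrix.cons_val_zero,
      Pi.zero_apply] at this
    rw [← this]
    exact Finset.sum_congr rfl fun k _ => mul_comm _ _
  · have := congrFun h 1
    simp only [Matrix.mulVec, dotProduct, Matrix.of_apply, Matrix.cons_val_one,
      Pi.zero_apply, Matrix.cons_val_zero] at this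
    rw [← this]
    exact Finset.sum_congr rfl fun k _ => mul_comm _ _

theorem ptIdeal_eval {p : Fin 3 → K} {f : MvPolynomial (Fin 3) K} (hf : f ∈ ptIdeal p) :
    eval p f = 0 := by
  have hle : ptIdeal p ≤ RingHom.ker (eval p) := by
    unfold ptIdeal
    rw [Ideal.span_le]
    rintro g ⟨l, hl, rfl⟩
    rw [SetLike.mem_coe, RingHom.mem_ker]
    simpa using hl
  exact hle hf

theorem ptIdeal_eval_smul {p : Fin 3 → K} {f : MvPolynomial (Fin 3) K} (hf : f ∈ ptIdeal p)
    (c : K) : eval (fun k => c * p k) f = 0 := by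
  have hle : ptIdeal p ≤ RingHom.ker (eval (fun k => c * p k)) := by
    unfold ptIdeal
    rw [Ideal.span_le]
    rintro g ⟨l, hl, rfl⟩
    rw [SetLike.mem_coe, RingHom.mem_ker]
    have : ∑ k, l k * (c * p k) = c * ∑ k, l k * p k := by
      rw [Finset.mul_sum]
      exact Finset.sum_congr rfl fun k _ => by ring
    simp [this, hl]
  exact hle hf

/-- A form of degree `d` whose multiplicity at a point is larger than `d` is zero. -/
theorem eq_zero_of_mult [Infinite K] {p : Fin 3 → K} {f : MvPolynomial (Fin 3) K} {d m : ℕ}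
    (hd : f.IsHomogeneous d) (hm : d < m) (hf : f ∈ ptIdeal p ^ m) : f = 0 := by
  apply MvPolynomial.funext
  intro x
  rw [map_zero]
  set g : Fin 3 → Polynomial K := fun k => Polynomial.C (x k - p k) * Polynomial.X +
    Polynomial.C (p k) with hg
  have hdeg : (MvPolynomial.aeval g f).natDegree ≤ d * 1 := by
    refine MvPolynomial.aeval_natDegree_le f hd.totalDegree_le g fun i => ?_
    rw [hg]
    exact Polynomial.natDegree_linear_le
  have hle : (ptIdeal p).map (MvPolynomial.aeval g : MvPolynomial (Fin 3) K →ₐ[K] Polynomial K) ≤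
      Ideal.span {Polynomial.X} := by
    unfold ptIdeal
    rw [Ideal.map_span, Ideal.span_le]
    rintro _ ⟨_, ⟨l, hl, rfl⟩, rfl⟩
    rw [SetLike.mem_coe, Ideal.mem_span_singleton]
    refine ⟨Polynomial.C (∑ k, l k * (x k - p k)), ?_⟩
    have h2 : ∑ k, Polynomial.C (l k) * Polynomial.C (p k) = (0 : Polynomial K) := by
      rw [← map_zero Polynomial.C, ← hl, map_sum]
      exact Finset.sum_congr rfl fun k _ => by rw [map_mul]
    rw [map_sum, map_sum, Finset.mul_sum]
    have h3 : ∀ k, (MvPolynomial.aeval g) (C (l k) * X k) =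
        Polynomial.X * Polynomial.C (l k * (x k - p k)) +
          Polynomial.C (l k) * Polynomial.C (p k) := by
      intro k
      rw [map_mul, aeval_X, algHom_C, hg]
      change Polynomial.C (l k) * _ = _
      simp only [map_mul]
      ring
    rw [Finset.sum_congr rfl fun k _ => h3 k, Finset.sum_add_distrib, h2, add_zero]
  have hmem : MvPolynomial.aeval g f ∈ Ideal.span {(Polynomial.X : Polynomial K) ^ m} := by
    rw [← Ideal.span_singleton_pow]
    have h1 := Ideal.mem_map_of_mem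
      (MvPolynomial.aeval g : MvPolynomial (Fin 3) K →ₐ[K] Polynomial K) hf
    rw [Ideal.map_pow] at h1
    exact Ideal.pow_right_mono hle m h1
  rw [Ideal.mem_span_singleton] at hmem
  have h0 : MvPolynomial.aeval g f = 0 := by
    refine Polynomial.eq_zero_of_dvd_of_natDegree_lt hmem ?_
    rw [Polynomial.natDegree_X_pow]
    omega
  have h1 : Polynomial.eval 1 (MvPolynomial.aeval g f) = eval x f := by
    have : ((Polynomial.evalRingHom (1 : K)).comp
        (MvPolynomial.aeval g : MvPolynomial (Fin 3) K →ₐ[K] Polynomial K).toRingHom) = eval x := by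
      apply MvPolynomial.ringHom_ext
      · intro r
        simp
      · intro i
        simp [hg]
    exact congrArg (fun h : MvPolynomial (Fin 3) K →+* K => h f) this
  rw [← h1, h0, Polynomial.eval_zero]

/-- Cones: unions of lines through `q`. -/
theorem exists_cone {n : ℕ} (S : Finset (Fin n)) (d : ℕ) (m : Fin n → ℕ)
    (h : ∑ i ∈ S, m i ≤ d) (p : Fin n → Fin 3 → K) (q : Fin 3 → K) :
    ∃ f : MvPolynomial (Fin 3) K, f ≠ 0 ∧ f.IsHomogeneous d ∧
      (∀ i ∈ S, f ∈ ptIdeal (p i) ^ m i) ∧ f ∈ ptIdeal q ^ d := by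
  choose l hl0 hl1 hl2 using fun i => exists_lin (p i) q
  obtain ⟨e, he0, he1, -⟩ := exists_lin q q
  refine ⟨(∏ i ∈ S, lin (l i) ^ m i) * lin e ^ (d - ∑ i ∈ S, m i), ?_, ?_, ?_, ?_⟩
  · refine mul_ne_zero ?_ (pow_ne_zero _ (lin_ne he0))
    exact Finset.prod_ne_zero_iff.2 fun i _ => pow_ne_zero _ (lin_ne (hl0 i))
  · have h1 : (∏ i ∈ S, lin (l i) ^ m i).IsHomogeneous (∑ i ∈ S, 1 * m i) :=
      IsHomogeneous.prod _ _ _ fun i _ => (lin_hom (l i)).pow (m i)
    have h2 := (lin_hom e).pow (d - ∑ i ∈ S, m i)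
    have h3 := h1.mul h2
    have h4 : ∑ i ∈ S, 1 * m i + 1 * (d - ∑ i ∈ S, m i) = d := by
      simp only [one_mul]
      omega
    rwa [h4] at h3
  · intro i hi
    refine Ideal.mul_mem_right _ _ ?_
    rw [← Finset.mul_prod_erase S _ hi]
    exact Ideal.mul_mem_right _ _ (Ideal.pow_mem_pow (lin_mem (hl1 i)) _)
  · have h1 : (∏ i ∈ S, lin (l i) ^ m i) ∈ ptIdeal q ^ (∑ i ∈ S, m i) := by
      rw [← Finset.prod_pow_eq_pow_sum]
      exact Ideal.prod_mem_prod fun i _ => Ideal.pow_mem_pow (lin_mem (hl2 i)) _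
    have h2 := Ideal.mul_mem_mul h1 (Ideal.pow_mem_pow (lin_mem he1) (d - ∑ i ∈ S, m i))
    rw [← pow_add] at h2
    have h4 : ∑ i ∈ S, m i + (d - ∑ i ∈ S, m i) = d := by omega
    rwa [h4] at h2

end Pool.Agent.BbIns
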