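import Mathlib

/-!
Plane linear systems with base points, in projective form.
-/

set_option autoImplicit false

namespace Pool.Agent.BbIns

open MvPolynomial

universe u

variable {K : Type u} [Field K]

/-- The ideal of the point `p` of the projective plane: generated by the linear forms
`l 0 * X 0 + l 1 * X 1 + l 2 * X 2` which vanish at `p`. -/
noncomputable def ptIdeal (p : Fin 3 → K) : Ideal (MvPolynomial (Fin 3) K) :=
  Ideal.span {g | ∃ l : Fin 3 → K, (∑ k, l k * p k) = 0 ∧ g = ∑ k, C (l k) * X k}

/-- There is a curve of degree `d` with multiplicity at least `m i` at the point `p i`,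
for every `i`. -/
def HasCurve {n : ℕ} (d : ℕ) (m : Fin n → ℕ) (p : Fin n → Fin 3 → K) : Prop :=
  ∃ f : MvPolynomial (Fin 3) K, f ≠ 0 ∧ f.IsHomogeneous d ∧ ∀ i, f ∈ ptIdeal (p i) ^ m i

/-- The linear system with `n` general base points is nonempty: there is a curve for all positions
outside the zero set of a nonzero polynomial `G` in the coordinates of the points. -/
def General (K : Type u) [Field K] {n : ℕ} (d : ℕ) (m : Fin n → ℕ) : Prop :=
  ∃ G : MvPolynomial (Fin n × Fin 3) K, G ≠ 0 ∧ ∀ p : Fin n → Fin 3 → K,
    eval (fun x => p x.1 x.2) G ≠ 0 → HasCurve d m p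

/-- The position with the parameters `w`: the first `r` points are the points `s * u + t * v` of
the line through `u` and `v`, the other points are arbitrary. -/
def conf {n : ℕ} (r : ℕ) (w : Fin n ⊕ Fin 2 → Fin 3 → K) (i : Fin n) : Fin 3 → K :=
  if i.val < r then fun k =>
    w (Sum.inl i) 0 * w (Sum.inr 0) k + w (Sum.inl i) 1 * w (Sum.inr 1) k
  else w (Sum.inl i)

/-- The linear system whose first `r` base points are collinear and otherwise general is
nonempty: there is a curve for all parameters outside the zero set of a nonzero polynomial. -/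
def CollinearGeneral (K : Type u) [Field K] {n : ℕ} (r d : ℕ) (m : Fin n → ℕ) : Prop :=
  ∃ G : MvPolynomial ((Fin n ⊕ Fin 2) × Fin 3) K, G ≠ 0 ∧ ∀ w : Fin n ⊕ Fin 2 → Fin 3 → K,
    eval (fun x => w x.1 x.2) G ≠ 0 → HasCurve d m (conf r w)

end Pool.Agent.BbIns
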