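import Pool.Agent.Lib.MP_bb72f8_ag.Ins.Shape

set_option autoImplicit false

namespace Pool.Agent.BbIns

open MvPolynomial

universe u

section
variable {R : Type*} [CommRing R]

/-- determinant -/
def det3 (a b c : Fin 3 → R) : R :=
  a 0 * (b 1 * c 2 - b 2 * c 1) - a 1 * (b 0 * c 2 - b 2 * c 0) + a 2 * (b 0 * c 1 - b 1 * c 0)

/-- the conic monomials at `p` in the coordinates `a`, `b`, `c` -/
def row (a b c p : Fin 3 → R) : Fin 3 → R :=
  ![det3 p b c * det3 a p c, det3 p b c * det3 a b p, det3 a p c * det3 a b p]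

/-- good position -/
def hgen (a b c p q s : Fin 3 → R) : R :=
  det3 a b c * (det3 a b p * det3 a b q * det3 a b s) *
    det3 (row a b c p) (row a b c q) (row a b c s)

theorem map_det3 {S : Type*} [CommRing S] (φ : R →+* S) (a b c : Fin 3 → R) :
    φ (det3 a b c) = det3 (fun k => φ (a k)) (fun k => φ (b k)) (fun k => φ (c k)) := by
  simp [det3]

theorem map_hgen {S : Type*} [CommRing S] (φ : R →+* S) (a b c p q s : Fin 3 → R) :
    φ (hgen a b c p q s) = hgen (fun k => φ (a k)) (fun k => φ (b k)) (fun k => φ (c k))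
      (fun k => φ (p k)) (fun k => φ (q k)) (fun k => φ (s k)) := by
  have hrow : ∀ p : Fin 3 → R, (fun k => φ (row a b c p k)) =
      row (fun k => φ (a k)) (fun k => φ (b k)) (fun k => φ (c k)) (fun k => φ (p k)) := by
    intro p
    funext k
    fin_cases k <;> simp [row, map_det3]
  simp only [hgen, map_mul, map_det3, hrow]

theorem cramer (a b c p : Fin 3 → R) (k : Fin 3) :
    det3 p b c * a k + det3 a p c * b k + det3 a b p * c k = det3 a b c * p k := by
  fin_cases k <;> simp only [det3, Fin.zero_eta, Fin.mk_one, Fin.reduceFinMk] <;> ring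

end

variable {K : Type u} [Field K]

theorem solve {r1 r2 r3 x : Fin 3 → K} (hdet : det3 r1 r2 r3 ≠ 0)
    (h1 : r1 0 * x 0 + r1 1 * x 1 + r1 2 * x 2 = 0)
    (h2 : r2 0 * x 0 + r2 1 * x 1 + r2 2 * x 2 = 0)
    (h3 : r3 0 * x 0 + r3 1 * x 1 + r3 2 * x 2 = 0) : x 0 = 0 ∧ x 1 = 0 ∧ x 2 = 0 := by
  refine ⟨?_, ?_, ?_⟩
  · refine (mul_eq_zero.1 ?_).resolve_left hdet
    simp only [det3]
    linear_combination (r2 1 * r3 2 - r2 2 * r3 1) * h1 - (r1 1 * r3 2 - r1 2 * r3 1) * h2 +
      (r1 1 * r2 2 - r1 2 * r2 1) * h3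
  · refine (mul_eq_zero.1 ?_).resolve_left hdet
    simp only [det3]
    linear_combination (-(r2 0 * r3 2 - r2 2 * r3 0)) * h1 + (r1 0 * r3 2 - r1 2 * r3 0) * h2 -
      (r1 0 * r2 2 - r1 2 * r2 0) * h3
  · refine (mul_eq_zero.1 ?_).resolve_left hdet
    simp only [det3]
    linear_combination (r2 0 * r3 1 - r2 1 * r3 0) * h1 - (r1 0 * r3 1 - r1 1 * r3 0) * h2 +
      (r1 0 * r2 1 - r1 1 * r2 0) * h3

/-- In good position there is no curve. -/
theorem no_curve [Infinite K] {a b c p q s : Fin 3 → K} (h : hgen a b c p q s ≠ 0) {d : ℕ}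
    (hd : 2 ≤ d) {f : MvPolynomial (Fin 3) K} (hf : f.IsHomogeneous d)
    (ha : f ∈ ptIdeal a ^ (d - 1)) (hb : f ∈ ptIdeal b ^ (d - 1)) (hc : f ∈ ptIdeal c)
    (hp : f ∈ ptIdeal p) (hq : f ∈ ptIdeal q) (hs : f ∈ ptIdeal s) : f = 0 := by
  obtain ⟨c11, c10, c01, c00, hsh⟩ := shape hd hf ha hb c
  rw [hgen] at h
  have hD : det3 a b c ≠ 0 := left_ne_zero_of_mul (left_ne_zero_of_mul h)
  have hR := right_ne_zero_of_mul h
  have h3 := right_ne_zero_of_mul (left_ne_zero_of_mul h)
  have gp := left_ne_zero_of_mul (left_ne_zero_of_mul h3)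
  have gq := right_ne_zero_of_mul (left_ne_zero_of_mul h3)
  have gs := right_ne_zero_of_mul h3
  have h00 : c00 = 0 := by
    have h1 := hsh 0 0 1
    have h2 : (fun k => (0 : K) * a k + 0 * b k + 1 * c k) = c := by
      funext k; ring
    rw [h2, ptIdeal_eval hc] at h1
    simpa using h1.symm
  subst h00
  have key : ∀ p : Fin 3 → K, det3 a b p ≠ 0 → f ∈ ptIdeal p →
      row a b c p 0 * (![c11, c10, c01] : Fin 3 → K) 0 +
        row a b c p 1 * (![c11, c10, c01] : Fin 3 → K) 1 +
        row a b c p 2 * (![c11, c10, c01] : Fin 3 → K) 2 = 0 := by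
    intro p hg hp
    have h1 := hsh (det3 p b c) (det3 a p c) (det3 a b p)
    have h2 : (fun k => det3 p b c * a k + det3 a p c * b k + det3 a b p * c k) =
        fun k => det3 a b c * p k := funext fun k => cramer a b c p k
    rw [h2, ptIdeal_eval_smul hp] at h1
    have h4 := (mul_eq_zero.1 h1.symm).resolve_left (pow_ne_zero _ hg)
    simp only [row, Matrix.cons_val_zero, Matrix.cons_val_one, Matrix.cons_val]
    linear_combination h4
  obtain ⟨e0, e1, e2⟩ := solve hR (key p gp hp) (key q gq hq) (key s gs hs)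
  simp only [Matrix.cons_val_zero, Matrix.cons_val_one, Matrix.cons_val] at e0 e1 e2
  subst e0 e1 e2
  apply MvPolynomial.funext
  intro x
  have h1 := hsh (det3 x b c / det3 a b c) (det3 a x c / det3 a b c) (det3 a b x / det3 a b c)
  have h2 : (fun k => det3 x b c / det3 a b c * a k + det3 a x c / det3 a b c * b k +
      det3 a b x / det3 a b c * c k) = x := by
    funext k
    have := cramer a b c x k
    field_simp
    linear_combination this
  rw [h2] at h1
  rw [h1, map_zero]
  ring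

/-- the multiplicities of the counterexample -/
def mm (n r d : ℕ) (i : Fin n) : ℕ :=
  if i.val < 4 then 1 else if i.val = r ∨ i.val = r + 1 then d - 1 else 0

theorem exists_point [Infinite K] {σ : Type*} {A : MvPolynomial σ K} (hA : A ≠ 0) :
    ∃ x : σ → K, eval x A ≠ 0 := by
  by_contra h
  push Not at h
  exact hA (MvPolynomial.funext fun x => by rw [h x, map_zero])

theorem not_general [Infinite K] {n r d : ℕ} (hr : 4 ≤ r) (hn : r + 2 ≤ n) (hd : 2 ≤ d) :
    ¬ General K d (mm n r d) := by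
  rintro ⟨G, hG, h⟩
  have b0 : 0 < n := by omega
  have b1 : 1 < n := by omega
  have b2 : 2 < n := by omega
  have b3 : 3 < n := by omega
  have br : r < n := by omega
  have br1 : r + 1 < n := by omega
  set H : MvPolynomial (Fin n × Fin 3) K := hgen (fun k => X (⟨r, br⟩, k))
    (fun k => X (⟨r + 1, br1⟩, k)) (fun k => X (⟨0, b0⟩, k)) (fun k => X (⟨1, b1⟩, k))
    (fun k => X (⟨2, b2⟩, k)) (fun k => X (⟨3, b3⟩, k)) with hH
  have hev : ∀ x : Fin n × Fin 3 → K, eval x H = hgen (fun k => x (⟨r, br⟩, k))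
      (fun k => x (⟨r + 1, br1⟩, k)) (fun k => x (⟨0, b0⟩, k)) (fun k => x (⟨1, b1⟩, k))
      (fun k => x (⟨2, b2⟩, k)) (fun k => x (⟨3, b3⟩, k)) := by
    intro x
    rw [hH, map_hgen]
    simp only [eval_X]
  have hH0 : H ≠ 0 := by
    intro h0
    let P : Fin n → Fin 3 → K := fun i =>
      if i.val = 0 then ![0, 0, 1] else if i.val = 1 then ![1, 0, 1] else if i.val = 2 then
        ![0, 1, 1] else if i.val = 3 then ![1, 1, 1] else if i.val = r then ![1, 0, 0] else
        ![0, 1, 0]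
    have h1 := hev (fun y => P y.1 y.2)
    rw [h0, map_zero] at h1
    have e0 : (fun k => P ⟨0, b0⟩ k) = ![0, 0, 1] := by simp [P]
    have e1 : (fun k => P ⟨1, b1⟩ k) = ![1, 0, 1] := by simp [P]
    have e2 : (fun k => P ⟨2, b2⟩ k) = ![0, 1, 1] := by simp [P]
    have e3 : (fun k => P ⟨3, b3⟩ k) = ![1, 1, 1] := by simp [P]
    have er : (fun k => P ⟨r, br⟩ k) = ![1, 0, 0] := by
      have a0 : r ≠ 0 := by omega
      have a1 : r ≠ 1 := by omega
      have a2 : r ≠ 2 := by omega
      have a3 : r ≠ 3 := by omega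
      simp [P, a0, a1, a2, a3]
    have er1 : (fun k => P ⟨r + 1, br1⟩ k) = ![0, 1, 0] := by
      have a1 : r ≠ 0 := by omega
      have a2 : r + 1 ≠ 2 := by omega
      have a3 : r + 1 ≠ 3 := by omega
      simp [P, a1, a2, a3]
    simp only at h1
    rw [e0, e1, e2, e3, er, er1] at h1
    simp [hgen, row, det3] at h1
  obtain ⟨x, hx⟩ := exists_point (mul_ne_zero hG hH0)
  rw [map_mul] at hx
  obtain ⟨f, hf0, hfd, hf⟩ := h (fun i k => x (i, k)) (left_ne_zero_of_mul hx)
  have hgood := right_ne_zero_of_mul hx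
  rw [hev] at hgood
  apply hf0
  have m1 : ∀ i : Fin n, i.val < 4 → f ∈ ptIdeal (fun k => x (i, k)) := by
    intro i hi
    have := hf i
    rw [mm, if_pos hi, pow_one] at this
    exact this
  have m2 : ∀ i : Fin n, (i.val = r ∨ i.val = r + 1) →
      f ∈ ptIdeal (fun k => x (i, k)) ^ (d - 1) := by
    intro i hi
    have := hf i
    rwa [mm, if_neg (by omega), if_pos hi] at this
  exact no_curve hgood hd hfd (m2 _ (Or.inl rfl)) (m2 _ (Or.inr rfl)) (m1 _ (by norm_num))
    (m1 _ (by norm_num)) (m1 _ (by norm_num)) (m1 _ (by norm_num))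

theorem collinearGeneral_mm {n r d : ℕ} (hr : 4 ≤ r) (hn : r + 2 ≤ n) (hd : 1 ≤ d) :
    CollinearGeneral K r d (mm n r d) := by
  refine ⟨1, one_ne_zero, fun w _ => ?_⟩
  obtain ⟨l, hl, hl1, hl2⟩ := exists_lin (w (Sum.inr 0)) (w (Sum.inr 1))
  obtain ⟨e, he, he1, he2⟩ := exists_lin (w (Sum.inl ⟨r, by omega⟩))
    (w (Sum.inl ⟨r + 1, by omega⟩))
  refine ⟨lin l * lin e ^ (d - 1), mul_ne_zero (lin_ne hl) (pow_ne_zero _ (lin_ne he)), ?_, ?_⟩
  · have h1 := (lin_hom l).mul ((lin_hom e).pow (d - 1))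
    have h2 : 1 + 1 * (d - 1) = d := by omega
    rwa [h2] at h1
  · intro i
    unfold mm
    split_ifs with h1 h2
    · rw [pow_one]
      refine Ideal.mul_mem_right _ _ (lin_mem ?_)
      have h3 : i.val < r := by omega
      simp only [conf, if_pos h3]
      have h4 : ∑ k, l k * (w (Sum.inl i) 0 * w (Sum.inr 0) k + w (Sum.inl i) 1 *
          w (Sum.inr 1) k) = w (Sum.inl i) 0 * ∑ k, l k * w (Sum.inr 0) k +
          w (Sum.inl i) 1 * ∑ k, l k * w (Sum.inr 1) k := by
        rw [Finset.mul_sum, Finset.mul_sum, ← Finset.sum_add_distrib]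
        exact Finset.sum_congr rfl fun k _ => by ring
      rw [h4, hl1, hl2]
      ring
    · refine Ideal.mul_mem_left _ _ (Ideal.pow_mem_pow (lin_mem ?_) _)
      have h3 : ¬ i.val < r := by omega
      simp only [conf, if_neg h3]
      rcases h2 with h2 | h2
      · have : i = ⟨r, by omega⟩ := Fin.ext h2
        rw [this]
        exact he1
      · have : i = ⟨r + 1, by omega⟩ := Fin.ext h2
        rw [this]
        exact he2
    · simp

theorem sum_mm {n r d : ℕ} (hd : 4 ≤ d) :
    ∑ i ∈ Finset.univ.filter (fun i : Fin n => i.val < r), mm n r d i ≤ d := by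
  have h1 : ∑ i ∈ Finset.univ.filter (fun i : Fin n => i.val < r), mm n r d i ≤
      ∑ i ∈ Finset.univ.filter (fun i : Fin n => i.val < r), if i.val < 4 then 1 else 0 := by
    refine Finset.sum_le_sum fun i hi => ?_
    rw [Finset.mem_filter] at hi
    unfold mm
    split_ifs <;> omega
  refine h1.trans ?_
  rw [← Finset.card_filter]
  refine le_trans ?_ hd
  have h2 := Finset.card_le_card_of_injOn (s := Finset.filter (fun i : Fin n => i.val < 4)
    (Finset.univ.filter (fun i : Fin n => i.val < r))) (t := Finset.range 4) (fun i => i.val)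
    (by
      intro i hi
      simp only [Finset.coe_filter, Set.mem_ofPred_eq] at hi
      simpa using hi.2)
    (fun i _ j _ h => Fin.ext h)
  simpa using h2

end Pool.Agent.BbIns
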