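import Pool.Agent.Lib.MP_bb72f8_ag.Ins.Basic

set_option autoImplicit false

namespace Pool.Agent.BbIns

open MvPolynomial

universe u

variable {K : Type u} [Field K]

/-- every monomial has degree at least `m` in the variables `j`, `k` -/
def Wt (j k : Fin 3) (m : ℕ) (g : MvPolynomial (Fin 3) K) : Prop :=
  ∀ e : Fin 3 →₀ ℕ, coeff e g ≠ 0 → m ≤ e j + e k

theorem Wt.add {j k : Fin 3} {m : ℕ} {g h : MvPolynomial (Fin 3) K} (hg : Wt j k m g)
    (hh : Wt j k m h) : Wt j k m (g + h) := by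
  intro e he
  rw [coeff_add] at he
  by_cases h1 : coeff e g = 0
  · rw [h1, zero_add] at he
    exact hh e he
  · exact hg e h1

theorem Wt.mul {j k : Fin 3} {m n : ℕ} {g h : MvPolynomial (Fin 3) K} (hg : Wt j k m g)
    (hh : Wt j k n h) : Wt j k (m + n) (g * h) := by
  classical
  intro e he
  rw [coeff_mul] at he
  obtain ⟨x, hx, hne⟩ := Finset.exists_ne_zero_of_sum_ne_zero he
  rw [Finset.HasAntidiagonal.mem_antidiagonal] at hx
  have h1 := hg x.1 (left_ne_zero_of_mul hne)
  have h2 := hh x.2 (right_ne_zero_of_mul hne)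
  rw [← hx]
  simp only [Finsupp.add_apply]
  omega

theorem Wt.zero (j k : Fin 3) (g : MvPolynomial (Fin 3) K) : Wt j k 0 g := fun _ _ => Nat.zero_le _

theorem Wt.X (j k i : Fin 3) (h : i = j ∨ i = k) : Wt j k 1 (X i : MvPolynomial (Fin 3) K) := by
  classical
  intro e he
  rw [coeff_X] at he
  have h1 : Finsupp.single i 1 = e := by
    by_contra h2
    rw [if_neg h2] at he
    exact he rfl
  rw [← h1]
  rcases h with rfl | rfl <;> simp

theorem wt_pow {j k : Fin 3} (I : Ideal (MvPolynomial (Fin 3) K)) (hI : ∀ g ∈ I, Wt j k 1 g)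
    (m : ℕ) : ∀ g ∈ I ^ m, Wt j k m g := by
  induction m with
  | zero => intro g _; exact Wt.zero j k g
  | succ m ih =>
    intro g hg
    rw [pow_succ] at hg
    refine Submodule.mul_induction_on hg ?_ ?_
    · intro a ha b hb
      exact (ih a ha).mul (hI b hb)
    · intro a b ha hb
      exact ha.add hb

/-- the change of coordinates -/
noncomputable def phi (a b c : Fin 3 → K) : MvPolynomial (Fin 3) K →ₐ[K] MvPolynomial (Fin 3) K :=
  aeval fun k => C (a k) * X 0 + C (b k) * X 1 + C (c k) * X 2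

theorem eval_phi (a b c x : Fin 3 → K) (f : MvPolynomial (Fin 3) K) :
    eval x (phi a b c f) = eval (fun k => x 0 * a k + x 1 * b k + x 2 * c k) f := by
  have : (eval x).comp (phi a b c).toRingHom =
      eval (fun k => x 0 * a k + x 1 * b k + x 2 * c k) := by
    apply MvPolynomial.ringHom_ext
    · intro r
      simp [phi]
    · intro i
      simp [phi]
      ring
  exact congrArg (fun h : MvPolynomial (Fin 3) K →+* K => h f) this

theorem phi_lin (a b c l : Fin 3 → K) : phi a b c (∑ k, C (l k) * X k) =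
    C (∑ k, l k * a k) * X 0 + C (∑ k, l k * b k) * X 1 + C (∑ k, l k * c k) * X 2 := by
  simp only [phi, map_sum, map_mul, aeval_X, algHom_C, Finset.sum_mul]
  rw [← Finset.sum_add_distrib, ← Finset.sum_add_distrib]
  refine Finset.sum_congr rfl fun k _ => ?_
  change C (l k) * _ = _
  ring

theorem wt_span {j k : Fin 3} {S : Set (MvPolynomial (Fin 3) K)} (hS : ∀ g ∈ S, Wt j k 1 g) :
    ∀ g ∈ Ideal.span S, Wt j k 1 g := by
  intro g hg
  refine Submodule.span_induction (p := fun g _ => Wt j k 1 g) ?_ ?_ ?_ ?_ hg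
  · exact fun x hx => hS x hx
  · intro e he
    simp at he
  · intro x y _ _ hx hy
    exact hx.add hy
  · intro a x _ hx
    rw [smul_eq_mul, ← zero_add 1]
    exact (Wt.zero j k a).mul hx

theorem phi_mem_a {a b c : Fin 3 → K} {m : ℕ} {f : MvPolynomial (Fin 3) K}
    (hf : f ∈ ptIdeal a ^ m) : Wt 1 2 m (phi a b c f) := by
  have h1 : ∀ g ∈ (ptIdeal a).map (phi a b c), Wt 1 2 1 g := by
    unfold ptIdeal
    rw [Ideal.map_span]
    apply wt_span
    rintro _ ⟨_, ⟨l, hl, rfl⟩, rfl⟩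
    rw [phi_lin, hl, map_zero, zero_mul, zero_add]
    refine Wt.add ?_ ?_
    · rw [← zero_add 1]
      exact (Wt.zero _ _ _).mul (Wt.X _ _ _ (Or.inl rfl))
    · rw [← zero_add 1]
      exact (Wt.zero _ _ _).mul (Wt.X _ _ _ (Or.inr rfl))
  refine wt_pow _ h1 m _ ?_
  rw [← Ideal.map_pow]
  exact Ideal.mem_map_of_mem _ hf

theorem phi_mem_b {a b c : Fin 3 → K} {m : ℕ} {f : MvPolynomial (Fin 3) K}
    (hf : f ∈ ptIdeal b ^ m) : Wt 0 2 m (phi a b c f) := by
  have h1 : ∀ g ∈ (ptIdeal b).map (phi a b c), Wt 0 2 1 g := by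
    unfold ptIdeal
    rw [Ideal.map_span]
    apply wt_span
    rintro _ ⟨_, ⟨l, hl, rfl⟩, rfl⟩
    rw [phi_lin, hl, map_zero, zero_mul, add_zero]
    refine Wt.add ?_ ?_
    · rw [← zero_add 1]
      exact (Wt.zero _ _ _).mul (Wt.X _ _ _ (Or.inl rfl))
    · rw [← zero_add 1]
      exact (Wt.zero _ _ _).mul (Wt.X _ _ _ (Or.inr rfl))
  refine wt_pow _ h1 m _ ?_
  rw [← Ideal.map_pow]
  exact Ideal.mem_map_of_mem _ hf

/-- The shape of a form of degree `d` with two points of multiplicity `d - 1`. -/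
theorem shape {a b : Fin 3 → K} {d : ℕ} (hd : 2 ≤ d) {f : MvPolynomial (Fin 3) K}
    (hf : f.IsHomogeneous d) (ha : f ∈ ptIdeal a ^ (d - 1)) (hb : f ∈ ptIdeal b ^ (d - 1))
    (c : Fin 3 → K) : ∃ c11 c10 c01 c00 : K, ∀ x y z : K,
      eval (fun k => x * a k + y * b k + z * c k) f =
        z ^ (d - 2) * (c11 * (x * y) + c10 * (x * z) + c01 * (y * z) + c00 * z ^ 2) := by
  have hF : (phi a b c f).IsHomogeneous (1 * d) := by
    refine hf.aeval _ fun k => ?_
    exact ((isHomogeneous_C_mul_X _ _).add (isHomogeneous_C_mul_X _ _)).add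
      (isHomogeneous_C_mul_X _ _)
  rw [one_mul] at hF
  have h1 := phi_mem_a (b := b) (c := c) ha
  have h2 := phi_mem_b (a := a) (c := c) hb
  have hE : ∀ x y z : K, eval (fun k => x * a k + y * b k + z * c k) f =
      eval ![x, y, z] (phi a b c f) := by
    intro x y z
    rw [eval_phi]
    rfl
  generalize phi a b c f = F at hF h1 h2 hE
  refine ⟨∑ e ∈ F.support, if e 0 = 1 ∧ e 1 = 1 then coeff e F else 0,
    ∑ e ∈ F.support, if e 0 = 1 ∧ e 1 = 0 then coeff e F else 0,
    ∑ e ∈ F.support, if e 0 = 0 ∧ e 1 = 1 then coeff e F else 0,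
    ∑ e ∈ F.support, if e 0 = 0 ∧ e 1 = 0 then coeff e F else 0, ?_⟩
  intro x y z
  rw [hE, eval_eq']
  rw [Finset.sum_mul, Finset.sum_mul, Finset.sum_mul, Finset.sum_mul,
    ← Finset.sum_add_distrib, ← Finset.sum_add_distrib, ← Finset.sum_add_distrib, Finset.mul_sum]
  refine Finset.sum_congr rfl fun e he => ?_
  rw [mem_support_iff] at he
  have e1 := h1 e he
  have e2 := h2 e he
  have e3 : e 0 + e 1 + e 2 = d := by
    have := hF he
    rw [Finsupp.weight_apply, Finsupp.sum_fintype _ _ (by simp)] at this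
    simpa [Fin.sum_univ_three] using this
  rw [Fin.prod_univ_three]
  simp only [Matrix.cons_val_zero, Matrix.cons_val_one, Matrix.cons_val]
  have h0 : e 0 = 0 ∨ e 0 = 1 := by omega
  have h0' : e 1 = 0 ∨ e 1 = 1 := by omega
  rcases h0 with h0 | h0 <;> rcases h0' with h0' | h0'
  · have h4 : e 2 = d - 2 + 2 := by omega
    rw [h0, h0', h4, pow_add]
    simp
    ring
  · have h4 : e 2 = d - 2 + 1 := by omega
    rw [h0, h0', h4, pow_add]
    simp
    ring
  · have h4 : e 2 = d - 2 + 1 := by omega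
    rw [h0, h0', h4, pow_add]
    simp
    ring
  · have h4 : e 2 = d - 2 := by omega
    rw [h0, h0', h4]
    simp
    ring

end Pool.Agent.BbIns
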