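import Pool.Agent.Lib.MP_bb72f8_ag.Ins.Empty

set_option autoImplicit false

namespace Pool.Agent.BbIns

open MvPolynomial

universe u

variable {K : Type u} [Field K]

theorem eval_bind {σ τ : Type*} (g : σ → MvPolynomial τ K) (A : MvPolynomial σ K) (x : τ → K) :
    eval x (bind₁ g A) = eval (fun s => eval x (g s)) A := by
  have : (eval x).comp (bind₁ g).toRingHom = eval (fun s => eval x (g s)) := by
    apply MvPolynomial.ringHom_ext
    · intro r
      simp
    · intro i
      simp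
  exact congrArg (fun h : MvPolynomial σ K →+* K => h A) this

theorem gen_to_col [Infinite K] {n r d : ℕ} (h1 : 1 ≤ r) (hn : r ≤ n) (h2 : r ≤ 2)
    {m : Fin n → ℕ} (h : General K d m) : CollinearGeneral K r d m := by
  obtain ⟨G, hG, hc⟩ := h
  have b0 : 0 < n := by omega
  have hev : ∀ w : Fin n ⊕ Fin 2 → Fin 3 → K, eval (fun x => w x.1 x.2)
      (bind₁ (fun y : Fin n × Fin 3 => if y.1.val < r then
        (X (Sum.inl y.1, 0) * X (Sum.inr 0, y.2) + X (Sum.inl y.1, 1) * X (Sum.inr 1, y.2) :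
          MvPolynomial ((Fin n ⊕ Fin 2) × Fin 3) K)
        else X (Sum.inl y.1, y.2)) G) = eval (fun y => conf r w y.1 y.2) G := by
    intro w
    rw [eval_bind]
    have : (fun y : Fin n × Fin 3 => eval (fun x => w x.1 x.2) (if y.1.val < r then
        (X (Sum.inl y.1, 0) * X (Sum.inr 0, y.2) + X (Sum.inl y.1, 1) * X (Sum.inr 1, y.2) :
          MvPolynomial ((Fin n ⊕ Fin 2) × Fin 3) K)
        else X (Sum.inl y.1, y.2))) = fun y => conf r w y.1 y.2 := by
      funext y
      unfold conf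
      split_ifs <;> simp
    rw [this]
  refine ⟨_, ?_, fun w hw => hc _ (by rw [hev] at hw; exact hw)⟩
  intro h0
  obtain ⟨x, hx⟩ := exists_point hG
  apply hx
  let w : Fin n ⊕ Fin 2 → Fin 3 → K := fun j => Sum.elim
    (fun i : Fin n => if i.val < r then (if i.val = 0 then ![1, 0, 0] else ![0, 1, 0]) else
      fun k => x (i, k))
    (fun i : Fin 2 => if i = 0 then fun k => x (⟨0, b0⟩, k) else
      if h : 1 < n then fun k => x (⟨1, h⟩, k) else 0) j
  have h3 := hev w
  rw [h0, map_zero] at h3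
  rw [h3]
  congr 1
  congr 1
  funext y
  unfold conf
  by_cases hy : y.1.val < r
  · rw [if_pos hy]
    by_cases hy0 : y.1.val = 0
    · have : y.1 = ⟨0, b0⟩ := Fin.ext hy0
      simp only [w, Sum.elim_inl, Sum.elim_inr, if_pos hy, if_pos hy0, if_true]
      simp only [Matrix.cons_val_zero, Matrix.cons_val_one, one_mul, zero_mul, add_zero]
      rw [← this]
    · have h4 : y.1.val = 1 := by omega
      have h5 : 1 < n := by omega
      have : y.1 = ⟨1, h5⟩ := Fin.ext h4
      simp only [w, Sum.elim_inl, Sum.elim_inr, if_pos hy, if_neg hy0, dif_pos h5]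
      simp only [Matrix.cons_val_zero, Matrix.cons_val_one, one_mul, zero_mul, zero_add]
      rw [if_neg (by decide), ← this]
  · rw [if_neg hy]
    simp only [w, Sum.elim_inl, if_neg hy]

theorem col_to_gen_aux {n r d : ℕ} {m : Fin n → ℕ} {G : MvPolynomial ((Fin n ⊕ Fin 2) × Fin 3) K}
    (hc : ∀ w : Fin n ⊕ Fin 2 → Fin 3 → K, eval (fun x => w x.1 x.2) G ≠ 0 →
      HasCurve d m (conf r w))
    (om : (Fin n ⊕ Fin 2) × Fin 3 → MvPolynomial (Fin n × Fin 3) K)
    (hW : ∀ p : Fin n → Fin 3 → K,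
      conf r (fun j k => eval (fun x : Fin n × Fin 3 => p x.1 x.2) (om (j, k))) = p)
    (w : Fin n ⊕ Fin 2 → Fin 3 → K)
    (hw : ∀ j k, eval (fun x : Fin n × Fin 3 => conf r w x.1 x.2) (om (j, k)) = w j k)
    (hG : eval (fun x => w x.1 x.2) G ≠ 0) : General K d m := by
  refine ⟨bind₁ om G, ?_, ?_⟩
  · intro h0
    apply hG
    have h1 := eval_bind om G (fun x : Fin n × Fin 3 => conf r w x.1 x.2)
    rw [h0, map_zero] at h1
    rw [h1]
    congr 1
    congr 1
    funext s
    exact (hw s.1 s.2).symm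
  · intro p hp
    rw [eval_bind] at hp
    have h1 := hc (fun j k => eval (fun x : Fin n × Fin 3 => p x.1 x.2) (om (j, k))) hp
    have h2 := hW p
    rw [h2] at h1
    exact h1

theorem col_to_gen_one [Infinite K] {n d : ℕ} (hn : 1 ≤ n)
    {m : Fin n → ℕ} (h : CollinearGeneral K 1 d m) : General K d m := by
  obtain ⟨G, hG, hc⟩ := h
  have b0 : 0 < n := by omega
  obtain ⟨z, hz⟩ : ∃ z : Fin n, z.val = 0 := ⟨⟨0, b0⟩, rfl⟩
  have hD : (X (Sum.inl z, 0) : MvPolynomial ((Fin n ⊕ Fin 2) × Fin 3) K) ≠ 0 := X_ne_zero _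
  obtain ⟨x, hx⟩ := exists_point (mul_ne_zero hG hD)
  rw [map_mul, eval_X] at hx
  have hs : x (Sum.inl z, 0) ≠ 0 := right_ne_zero_of_mul hx
  obtain ⟨s, hs0⟩ : ∃ s, s = x (Sum.inl z, 0) := ⟨_, rfl⟩
  obtain ⟨t, ht0⟩ : ∃ t, t = x (Sum.inl z, 1) := ⟨_, rfl⟩
  rw [← hs0] at hs
  let om : (Fin n ⊕ Fin 2) × Fin 3 → MvPolynomial (Fin n × Fin 3) K := fun y =>
    match y.1 with
    | Sum.inl i => if i.val < 1 then C (x (Sum.inl i, y.2)) else X (i, y.2)
    | Sum.inr i => if i = 0 then C s⁻¹ * (X (z, y.2) - C (t * x (Sum.inr 1, y.2))) else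
        C (x (Sum.inr 1, y.2))
  have o1 : ∀ (i : Fin n) (k : Fin 3), i.val < 1 → om (Sum.inl i, k) = C (x (Sum.inl i, k)) := by
    intro i k hi
    exact if_pos hi
  have o2 : ∀ (i : Fin n) (k : Fin 3), ¬ i.val < 1 → om (Sum.inl i, k) = X (i, k) := by
    intro i k hi
    exact if_neg hi
  have o3 : ∀ k : Fin 3, om (Sum.inr 0, k) = C s⁻¹ * (X (z, k) - C (t * x (Sum.inr 1, k))) := by
    intro k
    exact if_pos rfl
  have o4 : ∀ k : Fin 3, om (Sum.inr 1, k) = C (x (Sum.inr 1, k)) := by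
    intro k
    exact if_neg (by decide)
  refine col_to_gen_aux hc om ?_ (fun j k => x (j, k)) ?_ (left_ne_zero_of_mul hx)
  · intro p
    funext i k
    unfold conf
    by_cases hi : i.val < 1
    · have : i = z := Fin.ext (by omega)
      subst this
      rw [if_pos hi]
      simp only [o1 _ _ hi, o3, o4, eval_C, eval_X, map_mul, map_sub]
      rw [← hs0, ← ht0]
      field_simp
      ring
    · rw [if_neg hi]
      beta_reduce
      rw [o2 _ _ hi, eval_X]
  · rintro (i | i) k
    · by_cases hi : i.val < 1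
      · rw [o1 _ _ hi, eval_C]
      · rw [o2 _ _ hi, eval_X]
        unfold conf
        rw [if_neg hi]
    · have hi : i = 0 ∨ i = 1 := by omega
      rcases hi with rfl | rfl
      · rw [o3]
        simp only [eval_C, eval_X, map_mul, map_sub]
        unfold conf
        rw [if_pos (by omega)]
        beta_reduce
        rw [← hs0, ← ht0]
        field_simp
        ring
      · rw [o4, eval_C]

theorem col_to_gen_two [Infinite K] {n d : ℕ} (hn : 2 ≤ n)
    {m : Fin n → ℕ} (h : CollinearGeneral K 2 d m) : General K d m := by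
  obtain ⟨G, hG, hc⟩ := h
  obtain ⟨z, hz⟩ : ∃ z : Fin n, z.val = 0 := ⟨⟨0, by omega⟩, rfl⟩
  obtain ⟨z', hz'⟩ : ∃ z : Fin n, z.val = 1 := ⟨⟨1, by omega⟩, rfl⟩
  have hzz : z ≠ z' := by
    intro h0
    rw [h0] at hz
    omega
  have hD : (X (Sum.inl z, 0) * X (Sum.inl z', 1) - X (Sum.inl z, 1) * X (Sum.inl z', 0) :
      MvPolynomial ((Fin n ⊕ Fin 2) × Fin 3) K) ≠ 0 := by
    intro h0
    have := congrArg (eval (fun y : (Fin n ⊕ Fin 2) × Fin 3 =>
      if y.2 = 0 then (if y.1 = Sum.inl z then (1 : K) else 0) else 1)) h0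
    simp only [map_sub, map_mul, eval_X, map_zero] at this
    simp [hzz.symm] at this
  obtain ⟨x, hx⟩ := exists_point (mul_ne_zero hG hD)
  rw [map_mul] at hx
  simp only [map_sub, map_mul, eval_X] at hx
  have hs := right_ne_zero_of_mul hx
  obtain ⟨s, hs0⟩ : ∃ s, s = x (Sum.inl z, 0) := ⟨_, rfl⟩
  obtain ⟨t, ht0⟩ : ∃ t, t = x (Sum.inl z, 1) := ⟨_, rfl⟩
  obtain ⟨s', hs0'⟩ : ∃ s, s = x (Sum.inl z', 0) := ⟨_, rfl⟩
  obtain ⟨t', ht0'⟩ : ∃ t, t = x (Sum.inl z', 1) := ⟨_, rfl⟩
  rw [← hs0, ← ht0, ← hs0', ← ht0'] at hs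
  obtain ⟨D, hDdef⟩ : ∃ D, D = s * t' - t * s' := ⟨_, rfl⟩
  rw [← hDdef] at hs
  let om : (Fin n ⊕ Fin 2) × Fin 3 → MvPolynomial (Fin n × Fin 3) K := fun y =>
    match y.1 with
    | Sum.inl i => if i.val < 2 then C (x (Sum.inl i, y.2)) else X (i, y.2)
    | Sum.inr i => if i = 0 then C D⁻¹ * (C t' * X (z, y.2) - C t * X (z', y.2)) else
        C D⁻¹ * (C s * X (z', y.2) - C s' * X (z, y.2))
  have o1 : ∀ (i : Fin n) (k : Fin 3), i.val < 2 → om (Sum.inl i, k) = C (x (Sum.inl i, k)) := by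
    intro i k hi
    exact if_pos hi
  have o2 : ∀ (i : Fin n) (k : Fin 3), ¬ i.val < 2 → om (Sum.inl i, k) = X (i, k) := by
    intro i k hi
    exact if_neg hi
  have o3 : ∀ k : Fin 3, om (Sum.inr 0, k) = C D⁻¹ * (C t' * X (z, k) - C t * X (z', k)) := by
    intro k
    exact if_pos rfl
  have o4 : ∀ k : Fin 3, om (Sum.inr 1, k) = C D⁻¹ * (C s * X (z', k) - C s' * X (z, k)) := by
    intro k
    exact if_neg (by decide)
  refine col_to_gen_aux hc om ?_ (fun j k => x (j, k)) ?_ (left_ne_zero_of_mul hx)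
  · intro p
    funext i k
    unfold conf
    by_cases hi : i.val < 2
    · rw [if_pos hi]
      simp only [o1 _ _ hi, o3, o4, eval_C, eval_X, map_mul, map_sub]
      have hi2 : i = z ∨ i = z' := by
        rcases Nat.lt_or_ge i.val 1 with h | h
        · exact Or.inl (Fin.ext (by omega))
        · exact Or.inr (Fin.ext (by omega))
      rcases hi2 with rfl | rfl
      · rw [← hs0, ← ht0]
        field_simp
        rw [hDdef]
        ring
      · rw [← hs0', ← ht0']
        field_simp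
        rw [hDdef]
        ring
    · rw [if_neg hi]
      beta_reduce
      rw [o2 _ _ hi, eval_X]
  · rintro (i | i) k
    · by_cases hi : i.val < 2
      · rw [o1 _ _ hi, eval_C]
      · rw [o2 _ _ hi, eval_X]
        unfold conf
        rw [if_neg hi]
    · have hi : i = 0 ∨ i = 1 := by omega
      rcases hi with rfl | rfl
      · rw [o3]
        simp only [eval_C, eval_X, map_mul, map_sub]
        unfold conf
        rw [if_pos (by omega), if_pos (by omega)]
        beta_reduce
        rw [← hs0, ← ht0, ← hs0', ← ht0']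
        field_simp
        rw [hDdef]
        ring
      · rw [o4]
        simp only [eval_C, eval_X, map_mul, map_sub]
        unfold conf
        rw [if_pos (by omega), if_pos (by omega)]
        beta_reduce
        rw [← hs0, ← ht0, ← hs0', ← ht0']
        field_simp
        rw [hDdef]
        ring

/-- `r = n` or `r = n - 1`. -/
theorem last_case [Infinite K] {n r d : ℕ} (hn : n ≤ r + 1) {m : Fin n → ℕ}
    (hm : ∑ i ∈ Finset.univ.filter (fun i : Fin n => i.val < r), m i ≤ d) :
    General K d m ↔ CollinearGeneral K r d m := by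
  by_cases hcase : ∀ j : Fin n, ¬ j.val < r → m j ≤ d
  · have hall : ∀ p : Fin n → Fin 3 → K, HasCurve d m p := by
      intro p
      by_cases hr : ∃ j : Fin n, ¬ j.val < r
      · obtain ⟨j, hj⟩ := hr
        obtain ⟨f, hf0, hf1, hf2, hf3⟩ := exists_cone _ d m hm p (p j)
        refine ⟨f, hf0, hf1, fun i => ?_⟩
        by_cases hi : i.val < r
        · exact hf2 i (by simp [hi])
        · have : i = j := Fin.ext (by have := i.isLt; have := j.isLt; omega)
          subst this
          exact Ideal.pow_le_pow_right (hcase i hi) hf3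
      · push Not at hr
        obtain ⟨f, hf0, hf1, hf2, hf3⟩ := exists_cone _ d m hm p 0
        exact ⟨f, hf0, hf1, fun i => hf2 i (by simp [hr i])⟩
    exact ⟨fun _ => ⟨1, one_ne_zero, fun w _ => hall _⟩,
      fun _ => ⟨1, one_ne_zero, fun p _ => hall p⟩⟩
  · push Not at hcase
    obtain ⟨j, -, hj⟩ := hcase
    have hno : ∀ p : Fin n → Fin 3 → K, ¬ HasCurve d m p := by
      rintro p ⟨f, hf0, hf1, hf2⟩
      exact hf0 (eq_zero_of_mult hf1 hj (hf2 j))
    constructor
    · rintro ⟨G, hG, h⟩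
      obtain ⟨x, hx⟩ := exists_point hG
      exact absurd (h (fun i k => x (i, k)) hx) (hno _)
    · rintro ⟨G, hG, h⟩
      obtain ⟨x, hx⟩ := exists_point hG
      exact absurd (h (fun i k => x (i, k)) hx) (hno _)

theorem main [Infinite K] {n r d : ℕ} (h1 : 1 ≤ r) (hn : r ≤ n) (h3 : r ≠ 3) (hd : 4 ≤ d) :
    (∀ m : Fin n → ℕ, ∑ i ∈ Finset.univ.filter (fun i : Fin n => i.val < r), m i ≤ d →
      (General K d m ↔ CollinearGeneral K r d m)) ↔ (r ≤ 2 ∨ n ≤ r + 1) := by
  constructor
  · intro h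
    by_contra hcon
    push Not at hcon
    have h4 : 4 ≤ r := by omega
    have h5 : r + 2 ≤ n := by omega
    exact not_general h4 h5 (by omega) ((h _ (sum_mm hd)).2
      (collinearGeneral_mm h4 h5 (by omega)))
  · rintro (h | h) m hm
    · refine ⟨gen_to_col h1 hn h, fun hc => ?_⟩
      have : r = 1 ∨ r = 2 := by omega
      rcases this with rfl | rfl
      · exact col_to_gen_one hn hc
      · exact col_to_gen_two hn hc
    · exact last_case h hm

end Pool.Agent.BbIns
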